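import Mathlib

set_option autoImplicit false

namespace Pool.Agent.Lib.MP_1b9d6e_gt

universe u

/-- V is way below U: every family of open sets whose union contains U has a finite subfamily
whose union contains V. -/
def WayBelow {Y : Type u} [TopologicalSpace Y] (V U : Set Y) : Prop :=
  ∀ G : Set (Set Y), (∀ W ∈ G, IsOpen W) → U ⊆ ⋃₀ G → ∃ F ⊆ G, F.Finite ∧ V ⊆ ⋃₀ F

/-- Y is core-compact: every point y of an open set U lies in an open set V way below U. -/
def CoreCompact (Y : Type u) [TopologicalSpace Y] : Prop :=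
  ∀ U : Set Y, IsOpen U → ∀ y ∈ U, ∃ V : Set Y, IsOpen V ∧ y ∈ V ∧ WayBelow V U

end Pool.Agent.Lib.MP_1b9d6e_gt
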