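import Mathlib
import Pool.Agent.Lib.MP_1b9d6e_gt.Defs

set_option autoImplicit false

namespace Pool.Agent.Lib.MP_1b9d6e_gt

open Set TopologicalSpace Topology Filter

universe u

section General

variable {Y : Type u} [TopologicalSpace Y]

theorem WayBelow.subset {V U : Set Y} (h : WayBelow V U) (hU : IsOpen U) : V ⊆ U := by
  obtain ⟨F, hF, -, hV⟩ := h {U} (by simpa using hU) (by simp)
  intro y hy
  obtain ⟨W, hW, hyW⟩ := hV hy
  have := hF hW
  rw [mem_singleton_iff] at this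
  exact this ▸ hyW

theorem WayBelow.mono_left {V V' U : Set Y} (h : WayBelow V U) (hV : V' ⊆ V) : WayBelow V' U := by
  intro G hG hU
  obtain ⟨F, hF, hfin, hVF⟩ := h G hG hU
  exact ⟨F, hF, hfin, hV.trans hVF⟩

theorem WayBelow.union {V V' U : Set Y} (h : WayBelow V U) (h' : WayBelow V' U) :
    WayBelow (V ∪ V') U := by
  intro G hG hU
  obtain ⟨F, hF, hfin, hVF⟩ := h G hG hU
  obtain ⟨F', hF', hfin', hVF'⟩ := h' G hG hU
  refine ⟨F ∪ F', union_subset hF hF', hfin.union hfin', ?_⟩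
  rw [sUnion_union]
  exact union_subset_union hVF hVF'

theorem wayBelow_empty (U : Set Y) : WayBelow ∅ U :=
  fun _ _ _ => ⟨∅, empty_subset _, finite_empty, empty_subset _⟩

theorem WayBelow.exists_of_directed {V U : Set Y} (h : WayBelow V U) {ι : Type*} [Nonempty ι]
    (G : ι → Set Y) (hG : ∀ i, IsOpen (G i)) (hd : Directed (· ⊆ ·) G) (hU : U ⊆ ⋃ i, G i) :
    ∃ i, V ⊆ G i := by
  obtain ⟨F, hF, hfin, hVF⟩ := h (range G) (by rintro _ ⟨i, rfl⟩; exact hG i) (by simpa using hU)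
  have key : ∀ F : Set (Set Y), F.Finite → F ⊆ range G → ∃ i, ⋃₀ F ⊆ G i := by
    intro F hfin
    induction F, hfin using Set.Finite.induction_on with
    | empty => intro _; exact ⟨Classical.arbitrary ι, by simp⟩
    | @insert a s _ _ ih =>
      intro hs
      obtain ⟨i, hi⟩ := ih ((subset_insert _ _).trans hs)
      obtain ⟨j, rfl⟩ := hs (mem_insert _ _)
      obtain ⟨k, hik, hjk⟩ := hd i j
      refine ⟨k, ?_⟩
      rw [sUnion_insert]
      exact union_subset hjk (hi.trans hik)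
  obtain ⟨i, hi⟩ := key F hfin hF
  exact ⟨i, hVF.trans hi⟩

end General

section Main

variable {X : Type u} [TopologicalSpace X]

/-- closure of a point -/
def pt (x : X) : Closeds X := Closeds.closure {x}

theorem pt_le {x : X} {a : Closeds X} : pt x ≤ a ↔ x ∈ a := by
  simp [pt]

theorem mem_pt (x : X) : x ∈ pt x := pt_le.1 le_rfl

theorem mem_sup' {x : X} {a b : Closeds X} : x ∈ a ⊔ b ↔ x ∈ a ∨ x ∈ b := by
  rw [← SetLike.mem_coe, Closeds.coe_sup]; rfl

/-- elements below a join of an element of A and an element of B -/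
def joinSet (A B : Set (Closeds X)) : Set (Closeds X) := {c | ∃ a ∈ A, ∃ b ∈ B, c ≤ a ⊔ b}

theorem liminf_mem {A : Set (Closeds X)} (hl : IsLowerSet A) (hA : DirSupClosed A) {ι : Type u}
    (𝔘 : Ultrafilter ι) (a : ι → Closeds X) (ha : ∀ i, a i ∈ A) :
    ∃ a₀ ∈ A, ∀ y : X, (∀ᶠ i in 𝔘, y ∈ a i) → y ∈ a₀ := by
  let D : Set (Closeds X) := {c | ∃ S ∈ 𝔘, c = ⨅ i ∈ S, a i}
  have hDA : D ⊆ A := by
    rintro _ ⟨S, hS, rfl⟩
    obtain ⟨i, hi⟩ := 𝔘.nonempty_of_mem hS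
    exact hl (iInf₂_le i hi) (ha i)
  have hne : D.Nonempty := ⟨_, univ, univ_mem, rfl⟩
  have hdir : DirectedOn (· ≤ ·) D := by
    rintro _ ⟨S, hS, rfl⟩ _ ⟨T, hT, rfl⟩
    refine ⟨_, ⟨S ∩ T, inter_mem hS hT, rfl⟩, ?_, ?_⟩
    · exact biInf_mono fun i hi => hi.1
    · exact biInf_mono fun i hi => hi.2
  refine ⟨sSup D, hA hDA hne hdir (isLUB_sSup D), fun y hy => ?_⟩
  have h1 : (⨅ i ∈ {i | y ∈ a i}, a i) ≤ sSup D := le_sSup ⟨_, hy, rfl⟩
  apply h1
  simp

theorem dirSupClosed_joinSet {A B : Set (Closeds X)} (hlA : IsLowerSet A) (hA : DirSupClosed A)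
    (hlB : IsLowerSet B) (hB : DirSupClosed B) : DirSupClosed (joinSet A B) := by
  intro D hD hne hdir s hs
  have : IsDirectedOrder D := hdir.isDirectedOrder
  have : Nonempty D := hne.to_subtype
  choose a ha b hb hab using fun d : D => hD d.2
  let 𝔘 : Ultrafilter D := Ultrafilter.of atTop
  have h𝔘 : (𝔘 : Filter D) ≤ atTop := Ultrafilter.of_le _
  obtain ⟨a₀, ha₀, ha₁⟩ := liminf_mem hlA hA 𝔘 a ha
  obtain ⟨b₀, hb₀, hb₁⟩ := liminf_mem hlB hB 𝔘 b hb
  refine ⟨a₀, ha₀, b₀, hb₀, hs.2 fun d hd y hy => ?_⟩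
  have h1 : ∀ᶠ i in (𝔘 : Filter D), y ∈ a i ∨ y ∈ b i := by
    apply h𝔘
    filter_upwards [eventually_ge_atTop (⟨d, hd⟩ : D)] with i hi
    exact mem_sup'.1 (hab i (hi hy))
  rcases Ultrafilter.eventually_or.1 h1 with h | h
  · exact mem_sup'.2 (Or.inl (ha₁ y h))
  · exact mem_sup'.2 (Or.inr (hb₁ y h))

variable [τ : TopologicalSpace (Closeds X)] [IsScott (Closeds X) univ]

theorem isClosed_iff' {A : Set (Closeds X)} : IsClosed A ↔ IsLowerSet A ∧ DirSupClosed A :=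
  IsScott.isClosed_iff_isLowerSet_and_dirSupClosed

theorem isClosed_joinSet {A B : Set (Closeds X)} (hA : IsClosed A) (hB : IsClosed B) :
    IsClosed (joinSet A B) := by
  rw [isClosed_iff'] at *
  refine ⟨?_, dirSupClosed_joinSet hA.1 hA.2 hB.1 hB.2⟩
  rintro c c' hc ⟨a, ha, b, hb, hab⟩
  exact ⟨a, ha, b, hb, hc.trans hab⟩

/-- the closed sets that meet O -/
def dia (O : Set X) : Set (Closeds X) := {c | ∃ x ∈ c, x ∈ O}

theorem isOpen_dia {O : Set X} (hO : IsOpen O) : IsOpen (dia O) := by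
  have : dia O = (Iic (⟨Oᶜ, hO.isClosed_compl⟩ : Closeds X))ᶜ := by
    ext c
    simp only [dia, mem_ofPred_eq, mem_compl_iff, mem_Iic, SetLike.le_def, Closeds.mem_mk]
    push Not
    rfl
  rw [this]
  exact isClosed_Iic.isOpen_compl

theorem upper_of_open {U : Set (Closeds X)} (hU : IsOpen U) : IsUpperSet U :=
  IsScott.isUpperSet_of_isOpen (D := univ) hU

theorem step (h : CoreCompact (Closeds X)) {O : Set X} (hO : IsOpen O) {U : Set (Closeds X)}
    (hU : WayBelow U (dia O)) :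
    ∃ U' : Set (Closeds X), IsOpen U' ∧ WayBelow U' (dia O) ∧ joinSet U'ᶜ U'ᶜ ⊆ Uᶜ := by
  let ι := {W : Set (Closeds X) // IsOpen W ∧ WayBelow W (dia O)}
  have : Nonempty ι := ⟨⟨∅, isOpen_empty, wayBelow_empty _⟩⟩
  have mono : ∀ W W' : Set (Closeds X), W ⊆ W' → (joinSet Wᶜ Wᶜ)ᶜ ⊆ (joinSet W'ᶜ W'ᶜ)ᶜ := by
    intro W W' hW
    apply compl_subset_compl.2
    rintro c ⟨a, ha, b, hb, hab⟩
    exact ⟨a, fun h => ha (hW h), b, fun h => hb (hW h), hab⟩
  obtain ⟨W, hW⟩ := hU.exists_of_directed (ι := ι) (fun W => (joinSet W.1ᶜ W.1ᶜ)ᶜ)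
    (fun W => (isClosed_joinSet W.2.1.isClosed_compl W.2.1.isClosed_compl).isOpen_compl)
    (fun W W' => ⟨⟨W.1 ∪ W'.1, W.2.1.union W'.2.1, W.2.2.union W'.2.2⟩,
      mono _ _ subset_union_left, mono _ _ subset_union_right⟩)
    (by
      rintro c ⟨x, hxc, hxO⟩
      obtain ⟨V, hV, hxV, hVO⟩ := h (dia O) (isOpen_dia hO) (pt x) ⟨x, mem_pt x, hxO⟩
      refine mem_iUnion.2 ⟨⟨V, hV, hVO⟩, ?_⟩
      rintro ⟨a, ha, b, hb, hab⟩
      rcases mem_sup'.1 (hab hxc) with hx | hx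
      · exact ha (upper_of_open hV (pt_le.2 hx) hxV)
      · exact hb (upper_of_open hV (pt_le.2 hx) hxV))
  exact ⟨W.1, W.2.1, W.2.2, subset_compl_comm.1 hW⟩

theorem wayBelow_of_dia {O : Set X} {U : Set (Closeds X)} (hU : WayBelow U (dia O)) :
    WayBelow {y | pt y ∈ U} O := by
  intro G hG hO
  obtain ⟨F, hF, hfin, hUF⟩ := hU (dia '' G) (by rintro _ ⟨W, hW, rfl⟩; exact isOpen_dia (hG W hW))
    (by
      rintro c ⟨x, hxc, hxO⟩
      obtain ⟨W, hW, hxW⟩ := hO hxO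
      exact ⟨dia W, ⟨W, hW, rfl⟩, x, hxc, hxW⟩)
  obtain ⟨F', hF', hfin', hFF⟩ := (Set.exists_subset_image_finite_and (p := fun t => t = F)).1
    ⟨F, hF, hfin, rfl⟩
  subst hFF
  refine ⟨F', hF', hfin', fun y hy => ?_⟩
  obtain ⟨_, ⟨W, hW, rfl⟩, x, hx, hxW⟩ := hUF hy
  refine ⟨W, hW, ?_⟩
  have hx' : x ∈ closure ({y} : Set X) := hx
  obtain ⟨z, hzW, hz⟩ := mem_closure_iff.1 hx' W (hG W (hF' hW)) hxW
  rw [mem_singleton_iff] at hz
  exact hz ▸ hzW

theorem main_aux (h : CoreCompact (Closeds X)) : CoreCompact X := by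
  intro O hO x hx
  obtain ⟨U₀, hU₀, hxU₀, hU₀O⟩ := h (dia O) (isOpen_dia hO) (pt x) ⟨x, mem_pt x, hx⟩
  obtain ⟨W, hW, hxW, hWU⟩ := h U₀ hU₀ (pt x) hxU₀
  let ι := {V : Set (Closeds X) // IsOpen V ∧ WayBelow V (dia O)}
  choose nx hnx1 hnx2 hnx3 using fun V : ι => step h hO V.2.2
  let U : ℕ → ι := fun n => Nat.rec ⟨U₀, hU₀, hU₀O⟩ (fun _ V => ⟨nx V, hnx1 V, hnx2 V⟩) n
  let C : ℕ → Set (Closeds X) := fun n => (U n).1ᶜ
  have hC0 : C 0 = U₀ᶜ := rfl
  have hCc : ∀ n, IsClosed (C n) := fun n => (U n).2.1.isClosed_compl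
  have hCl : ∀ n, IsLowerSet (C n) := fun n => (isClosed_iff'.1 (hCc n)).1
  have hCj : ∀ n, ∀ a ∈ C (n + 1), ∀ b ∈ C (n + 1), a ⊔ b ∈ C n :=
    fun n a ha b hb => hnx3 (U n) ⟨a, ha, b, hb, le_rfl⟩
  have hanti : Antitone C := antitone_nat_of_succ_le fun n a ha => by
    simpa using hCj n a ha a ha
  have hbot : ∀ n, (⊥ : Closeds X) ∈ C n := by
    intro n hn
    obtain ⟨y, hy, -⟩ := (U n).2.2.subset (isOpen_dia hO) hn
    exact hy
  -- the top element of the intersection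
  let b : Closeds X := sSup (⋂ n, C n)
  have hb : b ∈ ⋂ n, C n := by
    refine (isClosed_iff'.1 (isClosed_iInter hCc)).2 subset_rfl ⟨⊥, mem_iInter.2 hbot⟩ ?_
      (isLUB_sSup _)
    intro a ha a' ha'
    exact ⟨a ⊔ a', mem_iInter.2 fun n => hCj n a (mem_iInter.1 ha (n + 1)) a' (mem_iInter.1 ha' (n + 1)),
      le_sup_left, le_sup_right⟩
  have hmemb : ∀ y : X, (∀ n, pt y ∈ C n) → y ∈ b := fun y hy =>
    pt_le.1 (le_sSup (mem_iInter.2 hy))
  by_contra hcon
  push Not at hcon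
  have hex : ∀ n, ∃ c ∈ W, ∀ y ∈ c, pt y ∈ C n := by
    intro n
    let D : Set (Closeds X) := {c | ∀ y ∈ c, pt y ∈ C n}
    have hne : D.Nonempty := ⟨⊥, fun y hy => hy.elim⟩
    have hdir : DirectedOn (· ≤ ·) D := fun a ha a' ha' =>
      ⟨a ⊔ a', fun y hy => (mem_sup'.1 hy).elim (ha y) (ha' y), le_sup_left, le_sup_right⟩
    have hxs : x ∈ sSup D := by
      by_contra hxs
      refine hcon ((sSup D : Closeds X) : Set X)ᶜ (sSup D).isClosed.isOpen_compl hxs ?_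
      refine (wayBelow_of_dia (U n).2.2).mono_left fun y hy => ?_
      by_contra hyU
      apply hy
      have : pt y ∈ D := fun z hz => hCl n (pt_le.2 hz) hyU
      exact pt_le.1 (le_sSup this)
    have hsW : sSup D ∈ W := upper_of_open hW (pt_le.2 hxs) hxW
    by_contra hno
    push Not at hno
    refine (isClosed_iff'.1 hW.isClosed_compl).2 (d := D) ?_ hne hdir (isLUB_sSup D) hsW
    intro c hc hcW
    obtain ⟨y, hy, hy'⟩ := hno c hcW
    exact hy' (hc y hy)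
  choose c hcW hc using hex
  let E : ℕ → Set (Closeds X) := fun m => {e | e ≤ b ∨ ∃ n, m ≤ n ∧ e ≤ c n}
  have hEb : ∀ e : Closeds X, (∀ N, ∃ n, N ≤ n ∧ e ≤ c n) → e ≤ b := by
    intro e he y hy
    refine hmemb y fun N => ?_
    obtain ⟨n, hn, hen⟩ := he N
    exact hanti hn (hc n y (hen hy))
  have hEc : ∀ m, IsClosed (E m) := by
    intro m
    rw [isClosed_iff']
    refine ⟨?_, ?_⟩
    · rintro e e' he (h1 | ⟨n, hn, h1⟩)
      · exact Or.inl (he.trans h1)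
      · exact Or.inr ⟨n, hn, he.trans h1⟩
    · intro D hD hne hdir s hs
      by_cases h1 : ∃ n, m ≤ n ∧ ∀ d ∈ D, d ≤ c n
      · obtain ⟨n, hn, h1⟩ := h1
        exact Or.inr ⟨n, hn, hs.2 h1⟩
      · push Not at h1
        refine Or.inl (hs.2 fun d hd => ?_)
        by_contra hdb
        refine hdb (hEb d fun N => ?_)
        have key : ∀ N, ∃ d' ∈ D, d ≤ d' ∧ ∀ n, m ≤ n → n < N → ¬ d' ≤ c n := by
          intro N
          induction N with
          | zero => exact ⟨d, hd, le_rfl, fun n _ hn => absurd hn (Nat.not_lt_zero n)⟩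
          | succ N ih =>
            obtain ⟨d', hd', hdd', hd''⟩ := ih
            by_cases hmN : m ≤ N
            · obtain ⟨e, he, hec⟩ := h1 N hmN
              obtain ⟨f, hf, hf1, hf2⟩ := hdir d' hd' e he
              refine ⟨f, hf, hdd'.trans hf1, fun n hn hnN hfc => ?_⟩
              rcases Nat.lt_succ_iff_lt_or_eq.1 hnN with h2 | rfl
              · exact hd'' n hn h2 (hf1.trans hfc)
              · exact hec (hf2.trans hfc)
            · exact ⟨d', hd', hdd', fun n hn hnN => hd'' n hn (by omega)⟩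
        obtain ⟨d', hd', hdd', hd''⟩ := key N
        rcases hD hd' with h2 | ⟨n, hn, h2⟩
        · exact absurd (hdd'.trans h2) hdb
        · refine ⟨n, ?_, hdd'.trans h2⟩
          by_contra hlt
          exact hd'' n hn (by omega) h2
  have hEmono : Monotone fun m => (E m)ᶜ := by
    intro m m' hm
    apply compl_subset_compl.2
    rintro e (h1 | ⟨n, hn, h1⟩)
    · exact Or.inl h1
    · exact Or.inr ⟨n, hm.trans hn, h1⟩
  obtain ⟨m, hm⟩ := hWU.exists_of_directed (fun m => (E m)ᶜ) (fun m => (hEc m).isOpen_compl)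
    hEmono.directed_le
    (by
      intro e he
      by_contra hne
      simp only [mem_iUnion, mem_compl_iff, not_exists, not_not] at hne
      have heb : e ≤ b := by
        by_contra heb
        exact heb (hEb e fun N => (hne N).resolve_left heb)
      exact mem_iInter.1 hb 0 (upper_of_open hU₀ heb he))
  exact hm (hcW m) (Or.inr ⟨m, le_rfl, le_rfl⟩)

end Main

theorem main (X : Type u) [TopologicalSpace X] (h : CoreCompact (WithScott (Closeds X))) :
    CoreCompact X :=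
  @main_aux X _ (scott (Closeds X) univ) (@IsScott.mk _ _ _ (scott (Closeds X) univ) rfl) h

end Pool.Agent.Lib.MP_1b9d6e_gt
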